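import Pool.Agent.Helper79.OB.GoalsC

/-!
# Project OB (MP_fc0446_an): END, a good system for involutions is a Bernoulli shift
-/

open MeasureTheory ProbabilityTheory
open scoped ENNReal

set_option autoImplicit false

namespace Pool.Agent.Helper30.OBB

open Pool.Agent.Helper73.OB Pool.Agent.Helper79.OB Pool.Agent.Helper58.Orb Monoid.CoprodI

section Words

variable {d : ℕ}

theorem bet_self (a : Ltr d) : bet d d a = a := by
  unfold bet
  rw [if_pos a.1.2]

/-- The list of letters of a word. -/
def wl (e : Ltr d ≃ Fin (2 * d)) (w : GWord (2 * d)) : List (Ltr d) :=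
  w.toList.map fun l => e.symm l.1

theorem wl_red (e : Ltr d ≃ Fin (2 * d)) (w : GWord (2 * d)) : Red (bet d d) (wl e w) := by
  unfold Red wl
  rw [List.isChain_map]
  refine List.IsChain.imp (fun a b hab => ?_) w.chain_ne
  rw [bet_self]
  intro h
  exact hab (e.symm.injective h.symm)

theorem wl_smul (e : Ltr d ≃ Fin (2 * d)) (a : Ltr d) (w : GWord (2 * d)) :
    wl e (gdir (e a) • w) = ls (bet d d) a (wl e w) := by
  by_cases h : w.fstIdx = some (e a)
  · induction w using Word.consRecOn with
    | empty => simp [Word.fstIdx] at h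
    | cons i m w h1 h2 _ =>
      rw [Word.fstIdx_cons, Option.some.injEq] at h
      subst h
      have hm : m = tau := eq_tau h2
      subst hm
      have h3 : wl e (Word.cons (M := fun _ : Fin (2 * d) => Multiplicative (ZMod 2))
          (i := e a) tau w h1 h2) = a :: wl e w := by
        show e.symm (e a) :: wl e w = a :: wl e w
        rw [e.symm_apply_apply]
      rw [h3]
      have h4 : gdir (e a) • Word.cons (M := fun _ : Fin (2 * d) => Multiplicative (ZMod 2))
          (i := e a) tau w h1 h2 = w := by
        rw [Word.cons_eq_smul]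
        change gdir (e a) • (gdir (e a) • w) = w
        rw [← mul_smul, gdir_mul_self, one_smul]
      rw [h4]
      unfold ls
      rw [bet_self, List.head?_cons, if_pos rfl, List.tail_cons]
  · have h3 : gdir (e a) • w = Word.cons (M := fun _ : Fin (2 * d) => Multiplicative (ZMod 2))
        (i := e a) tau w h tau_ne_one := by
      rw [Word.cons_eq_smul]
      rfl
    rw [h3]
    have h4 : wl e (Word.cons (M := fun _ : Fin (2 * d) => Multiplicative (ZMod 2))
        (i := e a) tau w h tau_ne_one) = a :: wl e w := by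
      show e.symm (e a) :: wl e w = a :: wl e w
      rw [e.symm_apply_apply]
    rw [h4]
    unfold ls
    rw [if_neg]
    rw [bet_self]
    intro h5
    apply h
    unfold wl at h5
    unfold Word.fstIdx
    rw [List.head?_map] at h5
    cases hl : w.toList.head? with
    | none => rw [hl] at h5; simp at h5
    | some l =>
      rw [hl] at h5
      simp only [Option.map_some, Option.some.injEq] at h5 ⊢
      rw [← h5, e.apply_symm_apply]

/-- The bijection of the group with the reduced words. -/
noncomputable def gamEquiv (e : Ltr d ≃ Fin (2 * d)) : Gam (2 * d) ≃ RW (bet d d) where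
  toFun γ := ⟨wl e (Word.equiv γ), wl_red e _⟩
  invFun w := Word.equiv.symm
    ⟨w.1.map fun a => ⟨e a, tau⟩, by
      intro l hl
      rw [List.mem_map] at hl
      obtain ⟨a, -, rfl⟩ := hl
      exact tau_ne_one, by
      rw [List.isChain_map]
      refine List.IsChain.imp (fun a b hab => ?_) w.2
      rw [bet_self] at hab
      intro h
      exact hab (e.injective h).symm⟩
  left_inv γ := by
    rw [Equiv.symm_apply_eq]
    apply Word.ext
    show ((Word.equiv γ : GWord (2 * d)).toList.map fun l => e.symm l.1).map
      (fun a => (⟨e a, tau⟩ : Σ _ : Fin (2 * d), Multiplicative (ZMod 2))) =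
        (Word.equiv γ : GWord (2 * d)).toList
    rw [List.map_map]
    conv_rhs => rw [← List.map_id (Word.equiv γ : GWord (2 * d)).toList]
    apply List.map_congr_left
    intro l hl
    have h2 : l.2 = tau := eq_tau ((Word.equiv γ : GWord (2 * d)).ne_one l hl)
    simp only [Function.comp_apply, id, e.apply_symm_apply]
    rw [← h2]
  right_inv w := by
    apply Subtype.ext
    simp only [Equiv.apply_symm_apply]
    show (w.1.map (fun a => (⟨e a, tau⟩ : Σ _ : Fin (2 * d), Multiplicative (ZMod 2)))).map
      (fun l => e.symm l.1) = w.1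
    rw [List.map_map]
    conv_rhs => rw [← List.map_id w.1]
    apply List.map_congr_left
    intro a _
    simp

theorem gamEquiv_val (e : Ltr d ≃ Fin (2 * d)) (γ : Gam (2 * d)) :
    (gamEquiv e γ).1 = wl e (Word.equiv γ) := rfl

end Words

theorem th_end : S_END := by
  intro d X _ μ _ f l hG
  have hcard : Fintype.card (Ltr d) = 2 * d := by
    simp [Ltr, mul_comm]
  let e : Ltr d ≃ Fin (2 * d) := Fintype.equivFinOfCardEq hcard
  obtain ⟨ρ, hρ, hρx⟩ := hG.gen
  let E := gamEquiv e
  let rel : (RW (bet d d) → unitInterval) → Bern (Gam (2 * d)) := fun ω γ => ω (E γ)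
  let rel' : Bern (Gam (2 * d)) → (RW (bet d d) → unitInterval) := fun y w => y (E.symm w)
  let Φ : X → Bern (Gam (2 * d)) := fun x => rel (field (bet d d) f l x)
  let Ψ : Bern (Gam (2 * d)) → X := fun y => ρ (rel' y)
  have hrel : MeasurePreserving rel (iid (bet d d) (volume : Measure unitInterval))
      (bern (Gam (2 * d))) := by
    refine ⟨by fun_prop, ?_⟩
    exact Measure.map_infinitePi_infinitePi_of_inj
      (P := fun _ : RW (bet d d) => (volume : Measure unitInterval)) E.injective
  have hΦ : MeasurePreserving Φ μ (bern (Gam (2 * d))) := hrel.comp hG.bnl.2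
  have hΨm : Measurable Ψ := hρ.comp (by fun_prop)
  have hΨΦ : ∀ᵐ x ∂μ, Ψ (Φ x) = x := by
    filter_upwards [hρx] with x hx
    have h1 : rel' (rel (field (bet d d) f l x)) = field (bet d d) f l x := by
      funext w
      show field (bet d d) f l x (E (E.symm w)) = _
      rw [E.apply_symm_apply]
    show ρ (rel' (rel (field (bet d d) f l x))) = x
    rw [h1]
    exact hx
  refine ⟨e, Φ, Ψ, hΦ, ⟨hΨm, ?_⟩, hΨΦ, ?_, ?_⟩
  · rw [← hΦ.map_eq, Measure.map_map hΨm hΦ.measurable]
    have h1 : Ψ ∘ Φ =ᵐ[μ] id := hΨΦ
    rw [Measure.map_congr h1, Measure.map_id]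
  · have h1 : ∀ γ : Gam (2 * d), ∀ᵐ y ∂(bern (Gam (2 * d))), Φ (Ψ y) γ = y γ := by
      intro γ
      rw [← hΦ.map_eq, ae_map_iff hΦ.measurable.aemeasurable]
      · filter_upwards [hΨΦ] with x hx
        rw [hx]
      · have h2 : Measurable fun y : Bern (Gam (2 * d)) => Φ (Ψ y) γ :=
          (measurable_pi_apply γ).comp (hΦ.measurable.comp hΨm)
        exact measurableSet_eq_fun h2 (measurable_pi_apply γ)
    filter_upwards [ae_all_iff.2 h1] with y hy
    exact funext hy
  · intro a x
    funext γ
    show l (run f (E γ).1 (f a x)) = l (run f (E ((gdir (e a))⁻¹ * γ)).1 x)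
    have h1 : (gdir (e a))⁻¹ = gdir (e a) := inv_eq_of_mul_eq_one_left (gdir_mul_self (e a))
    rw [h1]
    have h2 : (E (gdir (e a) * γ)).1 = ls (bet d d) a (E γ).1 := by
      show wl e (Word.equiv (gdir (e a) * γ)) = ls (bet d d) a (wl e (Word.equiv γ))
      rw [equiv_mul, wl_smul]
    rw [h2, run_ls hG.sys.inv]

end Pool.Agent.Helper30.OBB
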