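import Pool.Agent.Helper73.OB.GoalsB

/-!
# Project OB (MP_fc0446_an): SUB, the H-letters alone
-/

open MeasureTheory ProbabilityTheory
open scoped ENNReal

set_option autoImplicit false

namespace Pool.Agent.Helper30.OBB

open Pool.Agent.Helper73.OB

section

variable {S : Type} {β : S → S} {p : Bit → S}

/-- The letters different from `p 0, p 1`. -/
abbrev HL (p : Bit → S) : Type := {a : S // a ∉ Set.range p}

theorem red_map {β' : HL p → HL p} (hβ' : ∀ a, (β' a).1 = β a.1) (w : List (HL p)) :
    Red β' w ↔ Red β (w.map Subtype.val) := by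
  unfold Red
  rw [List.isChain_map]
  constructor <;> intro h <;> refine List.IsChain.imp (fun a b hab => ?_) h
  · intro h2
    apply hab
    apply Subtype.ext
    rw [h2, hβ']
  · intro h2
    apply hab
    rw [h2, hβ']

theorem run_map {X : Type} (f : S → X → X) (w : List (HL p)) (x : X) :
    run (fun a : HL p => f a.1) w x = run f (w.map Subtype.val) x := by
  unfold run
  rw [List.foldl_map]

theorem isH_map (w : List (HL p)) : IsH p (w.map Subtype.val) := by
  intro a ha
  rw [List.mem_map] at ha
  obtain ⟨b, -, rfl⟩ := ha
  exact b.2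

theorem exists_lift {w : List S} (h : IsH p w) : ∃ v : List (HL p), v.map Subtype.val = w := by
  refine ⟨w.attach.map fun a => ⟨a.1, h a.1 a.2⟩, ?_⟩
  rw [List.map_map]
  exact List.attach_map_subtype_val w

end

theorem sub : S_SUB := by
  intro S _ β p δ hFr e X _ μ _ f hf s hTM β' hβ'
  have hk : IsProbabilityMeasure (kap e) := by
    by_contra hcon
    have h0 : Measure.infinitePi (fun _ : HW β p => kap e) = 0 := by
      unfold Measure.infinitePi
      rw [dif_neg]
      intro h
      exact hcon (h ⟨[], List.isChain_nil, fun a ha => absurd ha List.not_mem_nil⟩)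
    have h1 := hTM.cos.map_eq
    rw [h0] at h1
    have h2 := Measure.map_eq_zero_iff hTM.cos.aemeasurable |>.1 h1
    exact IsProbabilityMeasure.ne_zero μ h2
  have hrun : ∀ (w : List (HL p)) (x : X),
      run (fun a : HL p => f a.1) w x = run f (w.map Subtype.val) x := run_map f
  have hred : ∀ w : List (HL p), Red β' w ↔ Red β (w.map Subtype.val) := red_map hβ'
  refine ⟨⟨fun a => hf.mp a.1, fun a x => ?_⟩, ⟨hTM.meas, ?_⟩, fun w => ⟨hred w, hrun w⟩, ?_⟩
  · show f (β' a).1 (f a.1 x) = x
    rw [hβ']
    exact hf.inv a.1 x
  · -- reindexing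
    let φ : RW β' → HW β p := fun w => ⟨w.1.map Subtype.val, (hred w.1).1 w.2, isH_map w.1⟩
    have hφ : Function.Injective φ := by
      intro v w h
      apply Subtype.ext
      exact List.map_injective_iff.2 Subtype.val_injective (congrArg Subtype.val h)
    have h1 : MeasurePreserving (fun (ω : HW β p → Sk) (w : RW β') => ω (φ w))
        (Measure.infinitePi fun _ : HW β p => kap e) (iid β' (kap e)) := by
      refine ⟨by fun_prop, ?_⟩
      exact Measure.map_infinitePi_infinitePi_of_inj (P := fun _ : HW β p => kap e) hφ
    have h2 := h1.comp hTM.cos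
    have h3 : field β' (fun a : HL p => f a.1) s =
        (fun (ω : HW β p → Sk) (w : RW β') => ω (φ w)) ∘ fun x (h : HW β p) => s (run f h.1 x) := by
      funext x w
      show s (run (fun a : HL p => f a.1) w.1 x) = s (run f (w.1.map Subtype.val) x)
      rw [hrun]
    rw [h3]
    exact h2
  · apply le_antisymm
    · refine iSup₂_le fun w hw => ?_
      have h1 : (fun x => s (run (fun a : HL p => f a.1) w x)) =
          fun x => s (run f (w.map Subtype.val) x) := by
        funext x
        rw [hrun]
      rw [h1]
      exact le_iSup₂ (f := fun (w : List S) (_ : w ∈ {w | Red β w ∧ IsH p w}) =>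
        MeasurableSpace.comap (fun x => s (run f w x)) inferInstance) (w.map Subtype.val)
        ⟨(hred w).1 hw, isH_map w⟩
    · refine iSup₂_le fun w hw => ?_
      obtain ⟨v, rfl⟩ := exists_lift hw.2
      have h1 : (fun x => s (run f (v.map Subtype.val) x)) =
          fun x => s (run (fun a : HL p => f a.1) v x) := by
        funext x
        rw [hrun]
      rw [h1]
      exact le_iSup₂ (f := fun (w : List (HL p)) (_ : w ∈ {w | Red β' w}) =>
        MeasurableSpace.comap (fun x => s (run (fun a : HL p => f a.1) w x)) inferInstance) v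
        ((hred v).2 hw.1)

end Pool.Agent.Helper30.OBB
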